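import Pool.Agent.Q173.KS.Stm

/-!
# Project KS, job CONTR: one round contracts
-/

set_option autoImplicit false

namespace Pool.Agent.Q103.KS

open Pool.Agent.Q173.KS Finset

lemma ES_abs_le {α : Type} [DecidableEq α] {ℓ : List (Op α)} (hℓ : Ok ℓ) {Φ : Finset α → ℝ}
    {k : ℕ} {δ : ℝ} (h : ∀ S, S.card ≤ k → |Φ S| ≤ δ) (S : Finset α) (hS : S.card ≤ k) :
    |ES ℓ Φ S| ≤ δ := by
  unfold ES
  exact EP_abs_le hℓ (fun σ => h _ (by rwa [Finset.card_map]))

section
variable {I : Type} [Fintype I] [DecidableEq I]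

omit [DecidableEq I] in
lemma ok_pairs : Ok (pairsP (fun _ : I => (1 : ℝ) / 2)) := by
  intro o ho
  unfold pairsP at ho
  obtain ⟨i, -, rfl⟩ := List.mem_map.1 ho
  refine ⟨fun h => ?_, by norm_num, by norm_num⟩
  exact absurd (Prod.mk.inj h).1 (by simp)

omit [Fintype I] [DecidableEq I] in
lemma via_left (σ : Equiv.Perm I) (i : I) :
    σ.viaEmbedding (emR I) (false, i) = (false, i) := by
  apply Equiv.Perm.viaEmbedding_apply_of_notMem
  rintro ⟨j, hj⟩
  exact absurd (congrArg Prod.fst hj) (by simp [emR])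

omit [Fintype I] [DecidableEq I] in
lemma via_right (σ : Equiv.Perm I) (i : I) :
    σ.viaEmbedding (emR I) (true, i) = (true, σ i) :=
  Equiv.Perm.viaEmbedding_apply σ (emR I) i

lemma pL_map (σ : Equiv.Perm I) (S : Finset (Bool × I)) :
    pL (S.map (σ.viaEmbedding (emR I)).toEmbedding) = pL S := by
  ext i
  simp only [pL, mem_filter, mem_univ, true_and, mem_map_equiv]
  rw [show (σ.viaEmbedding (emR I)).symm (false, i) = (false, i) by
    rw [Equiv.symm_apply_eq, via_left]]

lemma pR_map (σ : Equiv.Perm I) (S : Finset (Bool × I)) :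
    pR (S.map (σ.viaEmbedding (emR I)).toEmbedding) = (pR S).map σ.toEmbedding := by
  ext i
  simp only [pR, mem_filter, mem_univ, true_and, mem_map_equiv]
  rw [show (σ.viaEmbedding (emR I)).symm (true, i) = (true, σ.symm i) by
    rw [Equiv.symm_apply_eq, via_right, Equiv.apply_symm_apply]]

lemma card_pL_add (S : Finset (Bool × I)) : (pL S).card + (pR S).card ≤ S.card := by
  have h : Disjoint ((pL S).map (emL I)) ((pR S).map (emR I)) := by
    rw [Finset.disjoint_left]
    intro x hx hy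
    obtain ⟨i, -, rfl⟩ := Finset.mem_map.1 hx
    obtain ⟨j, -, hj⟩ := Finset.mem_map.1 hy
    exact absurd (congrArg Prod.fst hj) (by simp [emR, emL])
  rw [← Finset.card_map (emL I), ← Finset.card_map (f := emR I) (s := pR S),
    ← Finset.card_union_of_disjoint h]
  apply Finset.card_le_card
  intro x hx
  rcases Finset.mem_union.1 hx with hx | hx
  · obtain ⟨i, hi, rfl⟩ := Finset.mem_map.1 hx
    exact (Finset.mem_filter.1 hi).2
  · obtain ⟨i, hi, rfl⟩ := Finset.mem_map.1 hx
    exact (Finset.mem_filter.1 hi).2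

lemma EP_ind {j : ℕ} {ℓ : List (Op I)} (hu : Uni j ℓ) (hj : 1 ≤ j) (A : Finset I) (x : I) :
    EP ℓ (fun σ => if σ x ∈ A then (1 : ℝ) else 0) = (A.card : ℝ) / Fintype.card I := by
  have h1 : ∀ y, EP ℓ (fun σ => if σ y ∈ A then (1 : ℝ) else 0)
      = EP ℓ (fun σ => if σ x ∈ A then (1 : ℝ) else 0) := fun y =>
    hu 1 hj (fun f => if f 0 ∈ A then (1 : ℝ) else 0) (fun _ => y) (fun _ => x)
      (fun a b _ => Subsingleton.elim a b) (fun a b _ => Subsingleton.elim a b)
  have h2 : ∑ y : I, EP ℓ (fun σ => if σ y ∈ A then (1 : ℝ) else 0) = A.card := by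
    rw [← EP_sum, ← EP_const ℓ (A.card : ℝ)]
    congr 1
    funext σ
    rw [Equiv.sum_comp σ (fun z => if z ∈ A then (1 : ℝ) else 0)]
    simp
  rw [Finset.sum_congr rfl (fun y _ => h1 y), Finset.sum_const, Finset.card_univ,
    nsmul_eq_mul] at h2
  have hN : (Fintype.card I : ℝ) ≠ 0 := by
    have : 0 < Fintype.card I := Fintype.card_pos_iff.2 ⟨x⟩
    exact_mod_cast this.ne'
  rw [eq_div_iff hN, mul_comm]
  exact h2

end

/-- JOB CONTR -/
theorem contr (hHALF : S_HALF) : S_CONTR := by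
  intro I _ _ k hkN hN ℓ hℓ hu D δ hL hR hrel hD0 hD S hS
  have hδ : 0 ≤ δ := (abs_nonneg _).trans (hD ∅ (by simp))
  have hNr : (0 : ℝ) < Fintype.card I := by exact_mod_cast hN
  set N : ℝ := ((Fintype.card I : ℕ) : ℝ) with hNdef
  set Ψ := ES (pairsP (fun _ : I => (1 : ℝ) / 2)) D with hΨ
  have hΨle : ∀ T : Finset (Bool × I), T.card ≤ k → |Ψ T| ≤ δ :=
    fun T hT => ES_abs_le ok_pairs hD T hT
  rcases S.eq_empty_or_nonempty with rfl | hne
  · have h0 : ES (ℓ.map (Op.map (emR I))) Ψ ∅ = 0 := by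
      have h1 : Ψ ∅ = 0 := by
        rw [hΨ]
        unfold ES
        simp only [Finset.map_empty, hD0]
        exact EP_const _ 0
      unfold ES
      simp only [Finset.map_empty, h1]
      exact EP_const _ 0
    rw [h0, abs_zero]
    positivity
  -- the bound at each permutation
  set A := pL S with hA
  set B := pR S with hB
  have hAB : A.card + B.card ≤ k := (card_pL_add S).trans hS
  have hpt : ∀ σ : Equiv.Perm I, |Ψ (S.map (σ.viaEmbedding (emR I)).toEmbedding)|
      ≤ k * δ / N + δ * ∑ x ∈ B, if σ x ∈ A then (1 : ℝ) else 0 := by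
    intro σ
    have hcard : (S.map (σ.viaEmbedding (emR I)).toEmbedding).card ≤ k := by
      rwa [Finset.card_map]
    have hsum0 : 0 ≤ ∑ x ∈ B, if σ x ∈ A then (1 : ℝ) else 0 :=
      Finset.sum_nonneg (fun x _ => by split_ifs <;> norm_num)
    have hkd : 0 ≤ k * δ / N := by positivity
    by_cases hdis : Disjoint A (B.map σ.toEmbedding)
    · have h1 := hHALF I k hkN D δ hL hR hrel hD (S.map (σ.viaEmbedding (emR I)).toEmbedding)
        hcard (hne.map) (by rw [pL_map, pR_map]; exact hdis)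
      have h2 : 0 ≤ δ * ∑ x ∈ B, if σ x ∈ A then (1 : ℝ) else 0 := mul_nonneg hδ hsum0
      linarith
    · rw [Finset.not_disjoint_iff] at hdis
      obtain ⟨a, ha, hb⟩ := hdis
      obtain ⟨x, hx, hxa⟩ := Finset.mem_map.1 hb
      have hxa' : σ x = a := hxa
      have h1 : (1 : ℝ) ≤ ∑ x ∈ B, if σ x ∈ A then (1 : ℝ) else 0 := by
        have h2 := Finset.single_le_sum (f := fun x => if σ x ∈ A then (1 : ℝ) else 0)
          (fun x _ => by split_ifs <;> norm_num) hx
        simp only [hxa', ha, if_true] at h2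
        exact h2
      have h3 := hΨle _ hcard
      have h4 : δ * 1 ≤ δ * ∑ x ∈ B, if σ x ∈ A then (1 : ℝ) else 0 :=
        mul_le_mul_of_nonneg_left h1 hδ
      linarith
  -- the expectation of the bound
  have hE : EP ℓ (fun σ => k * δ / N + δ * ∑ x ∈ B, if σ x ∈ A then (1 : ℝ) else 0)
      ≤ ((k : ℝ) + k ^ 2) / N * δ := by
    rw [EP_add, EP_const, EP_mul, EP_sum]
    have h1 : ∀ x ∈ B, EP ℓ (fun σ => if σ x ∈ A then (1 : ℝ) else 0) = (A.card : ℝ) / N := by
      intro x hx
      rcases A.eq_empty_or_nonempty with hA0 | hA1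
      · rw [hA0]
        simp only [Finset.notMem_empty, if_false, Finset.card_empty, Nat.cast_zero, zero_div]
        exact EP_const ℓ 0
      · have h2 : 1 ≤ A.card := hA1.card_pos
        have h3 : 1 ≤ B.card := Finset.card_pos.2 ⟨x, hx⟩
        exact EP_ind hu (by omega) A x
    rw [Finset.sum_congr rfl h1, Finset.sum_const, nsmul_eq_mul]
    have h4 : (B.card : ℝ) ≤ k := by
      have : B.card ≤ k := by omega
      exact_mod_cast this
    have h5 : (A.card : ℝ) ≤ k := by
      have : A.card ≤ k := by omega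
      exact_mod_cast this
    have h6 : (B.card : ℝ) * A.card ≤ k ^ 2 := by
      rw [sq]
      exact mul_le_mul h4 h5 (by positivity) (by positivity)
    have h7 : δ * ((B.card : ℝ) * (A.card / N)) ≤ δ * (k ^ 2 / N) := by
      apply mul_le_mul_of_nonneg_left _ hδ
      rw [← mul_div_assoc]
      exact div_le_div_of_nonneg_right h6 hNr.le
    have h8 : ((k : ℝ) + k ^ 2) / N * δ = k * δ / N + δ * (k ^ 2 / N) := by ring
    rw [h8]
    linarith
  have hmap : ES (ℓ.map (Op.map (emR I))) Ψ S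
      = EP ℓ (fun σ => Ψ (S.map (σ.viaEmbedding (emR I)).toEmbedding)) := by
    unfold ES
    rw [EP_map]
  rw [hmap, abs_le]
  constructor
  · have h1 : EP ℓ (fun σ => -(k * δ / N + δ * ∑ x ∈ B, if σ x ∈ A then (1 : ℝ) else 0))
        ≤ EP ℓ (fun σ => Ψ (S.map (σ.viaEmbedding (emR I)).toEmbedding)) :=
      EP_mono hℓ (fun σ => (abs_le.1 (hpt σ)).1)
    rw [EP_neg] at h1
    linarith
  · have h1 : EP ℓ (fun σ => Ψ (S.map (σ.viaEmbedding (emR I)).toEmbedding))
        ≤ EP ℓ (fun σ => k * δ / N + δ * ∑ x ∈ B, if σ x ∈ A then (1 : ℝ) else 0) :=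
      EP_mono hℓ (fun σ => (abs_le.1 (hpt σ)).2)
    linarith

end Pool.Agent.Q103.KS
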