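import Mathlib
import Pool.Agent.Q264.KS.Stm
set_option autoImplicit false

namespace Pool.Agent.Q103.KS
open Pool.Agent.Q264.KS

universe u

theorem t_DEN : S_DEN.{u} := by
  intro X _ _ _ v hv ε hε
  have hd := dense_differentiableAt_norm (E := X)
  obtain ⟨z, hz1, hz2⟩ := Metric.dense_iff.1 hd v (min (ε / 2) (1 / 2))
    (lt_min (by linarith) (by norm_num))
  rw [Metric.mem_ball, dist_eq_norm] at hz1
  have hz3 : ‖z - v‖ < ε / 2 := lt_of_lt_of_le hz1 (min_le_left _ _)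
  have hz4 : ‖z - v‖ < 1 / 2 := lt_of_lt_of_le hz1 (min_le_right _ _)
  have habs : |‖z‖ - ‖v‖| ≤ ‖z - v‖ := abs_norm_sub_norm_le z v
  rw [hv] at habs
  have h1 := (abs_le.1 habs).1
  have hzpos : 0 < ‖z‖ := by linarith
  refine ⟨‖z‖⁻¹ • z, ?_, ?_, ?_⟩
  · rw [norm_smul, norm_inv, norm_norm, inv_mul_cancel₀ hzpos.ne']
  · have e1 : ‖z‖⁻¹ • z - v = (‖z‖⁻¹ - 1) • z + (z - v) := by
      rw [sub_smul, one_smul]
      abel
    have e2 : ‖(‖z‖⁻¹ - 1) • z‖ = |‖z‖ - 1| := by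
      rw [norm_smul, Real.norm_eq_abs]
      have : (‖z‖⁻¹ - 1) = (1 - ‖z‖) / ‖z‖ := by
        field_simp
      rw [this, abs_div, abs_of_pos hzpos, div_mul_cancel₀ _ hzpos.ne', abs_sub_comm]
    calc ‖‖z‖⁻¹ • z - v‖ = ‖(‖z‖⁻¹ - 1) • z + (z - v)‖ := by rw [e1]
      _ ≤ ‖(‖z‖⁻¹ - 1) • z‖ + ‖z - v‖ := norm_add_le _ _
      _ = |‖z‖ - 1| + ‖z - v‖ := by rw [e2]
      _ < ε := by linarith
  · exact (differentiableAt_norm_smul (inv_ne_zero hzpos.ne')).1 hz2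

end Pool.Agent.Q103.KS
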